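import Pool.Agent.G02.Stmts

/-!
# Row SUS of squad G02: supports in recipe S
-/

set_option autoImplicit false

namespace Pool.Agent.G02.H81

open Pool.Agent.G02

/-- a square factor which is prime to `l` does not change the symbol -/
theorem leg_sq_mul (l : ℕ) [Fact l.Prime] (x y : ℤ) (hx : ¬ (l : ℤ) ∣ x) :
    legendreSym l (x ^ 2 * y) = legendreSym l y := by
  rw [legendreSym.mul, legendreSym.sq_one' l, one_mul]
  intro h
  exact hx ((ZMod.intCast_zmod_eq_zero_iff_dvd x l).1 h)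

/-- a prime factor of `c k² p^x q^y r^z` which is different from `2`, `p`, `q`, `r` divides `k` -/
theorem dvd_k {l p q r : ℕ} {k : ℤ} (hl : l.Prime) (pp : p.Prime) (pq : q.Prime) (pr : r.Prime)
    (h2 : l ≠ 2) (hp : l ≠ p) (hq : l ≠ q) (hr : l ≠ r)
    (h : (l : ℤ) ∣ (2 * k * p * q * r) ^ 3) : (l : ℤ) ∣ k := by
  have hlZ : Prime (l : ℤ) := Nat.prime_iff_prime_int.1 hl
  have h1 := hlZ.dvd_of_dvd_pow h
  have hne : ∀ {s : ℕ}, s.Prime → l ≠ s → ¬ (l : ℤ) ∣ (s : ℤ) := by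
    intro s hs hls hd
    exact hls ((Nat.prime_dvd_prime_iff_eq hl hs).1 (Int.natCast_dvd_natCast.1 hd))
  rcases hlZ.dvd_or_dvd h1 with h1 | h1
  · rcases hlZ.dvd_or_dvd h1 with h1 | h1
    · rcases hlZ.dvd_or_dvd h1 with h1 | h1
      · rcases hlZ.dvd_or_dvd h1 with h1 | h1
        · exact absurd (by exact_mod_cast h1) (hne Nat.prime_two h2)
        · exact h1
      · exact absurd h1 (hne pp hp)
    · exact absurd h1 (hne pq hq)
  · exact absurd h1 (hne pr hr)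

theorem sus (hLh : LhStmt) : SusStmt := by
  intro m k p q r R d M e N B
  have hr := R.hr
  have main : ∀ (l : ℕ), l.Prime → l ≠ 2 → l ≠ p → l ≠ q → l ≠ r → (l : ℤ) ∣ k →
      ∃ k' : ℤ, k = l * k' ∧ ¬ (l : ℤ) ∣ (4 * k' * p * q * r) ∧
        ¬ (l : ℤ) ∣ (2 * k' * p * q * r) := by
    intro l hl h2 hp hq hrr hk
    obtain ⟨k', hk'⟩ := hk
    have hlZ : Prime (l : ℤ) := Nat.prime_iff_prime_int.1 hl
    have hkk : ¬ (l : ℤ) ∣ k' := by
      rintro ⟨t, ht⟩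
      have h3 : (l : ℤ) * l ∣ k := ⟨t, by rw [hk', ht]; ring⟩
      have h4 := R.sqf l h3
      exact hlZ.not_isUnit h4
    have h5 : ¬ (l : ℤ) ∣ (2 * k' * p * q * r) := fun h =>
      hkk (dvd_k hl R.pp R.pq R.pr h2 hp hq hrr (h.trans (dvd_pow_self _ (by norm_num))))
    refine ⟨k', hk', ?_, h5⟩
    intro h
    have e4 : (4 * k' * p * q * r : ℤ) = 2 * (2 * k' * p * q * r) := by ring
    rw [e4] at h
    rcases hlZ.dvd_or_dvd h with h | h
    · have h6 : l ∣ 2 := by exact_mod_cast h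
      exact h2 ((Nat.prime_dvd_prime_iff_eq hl Nat.prime_two).1 h6)
    · exact h5 h
  constructor
  · intro Q l hl hld
    by_contra hcon
    push Not at hcon
    obtain ⟨h2, hp, hq, hrr⟩ := hcon
    have hfl : Fact l.Prime := ⟨hl⟩
    have hb : (l : ℤ) ∣ (2 * k * p * q * r) ^ 3 := by
      have h1 : (l : ℤ) ∣ 2 * k ^ 2 * p ^ 3 * q ^ 3 * r ^ 2 := by
        rw [Q.hb]
        exact hld.mul_right B
      have e1 : ((2 * k * p * q * r) ^ 3 : ℤ) =
          2 * k ^ 2 * p ^ 3 * q ^ 3 * r ^ 2 * (4 * k * r) := by ring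
      rw [e1]
      exact h1.mul_right _
    obtain ⟨k', hk', h4, h5⟩ := main l hl h2 hp hq hrr
      (dvd_k hl R.pp R.pq R.pr h2 hp hq hrr hb)
    refine hLh _ _ d M e N B Q l (-(4 * k' * p ^ 2 * q * r)) (2 * k' ^ 2 * p ^ 3 * q ^ 3 * r ^ 2)
      h2 (by rw [hk']; ring) (by rw [hk']; ring) ?_ hld
    have e2 : (-(4 * k' * p ^ 2 * q * r)) ^ 2 - 4 * (2 * k' ^ 2 * p ^ 3 * q ^ 3 * r ^ 2) =
        (2 * k' * p * q * r) ^ 2 * (-(2 * p * r)) := by
      rw [hr]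
      ring
    rw [e2, leg_sq_mul l _ _ h5]
    exact (R.leg l h2 ⟨k', hk'⟩).2
  · intro Q l hl hld
    by_contra hcon
    push Not at hcon
    obtain ⟨h2, hp, hq, hrr⟩ := hcon
    have hfl : Fact l.Prime := ⟨hl⟩
    have hb : (l : ℤ) ∣ (2 * k * p * q * r) ^ 3 := by
      have h1 : (l : ℤ) ∣ -(8 * k ^ 2 * p ^ 3 * q ^ 2 * r ^ 3) := by
        rw [Q.hb]
        exact hld.mul_right B
      have e1 : ((2 * k * p * q * r) ^ 3 : ℤ) =
          -(8 * k ^ 2 * p ^ 3 * q ^ 2 * r ^ 3) * (-(k * q)) := by ring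
      rw [e1]
      exact h1.mul_right _
    obtain ⟨k', hk', h4, h5⟩ := main l hl h2 hp hq hrr
      (dvd_k hl R.pp R.pq R.pr h2 hp hq hrr hb)
    refine hLh _ _ d M e N B Q l (8 * k' * p ^ 2 * q * r) (-(8 * k' ^ 2 * p ^ 3 * q ^ 2 * r ^ 3))
      h2 (by rw [hk']; ring) (by rw [hk']; ring) ?_ hld
    have e2 : (8 * k' * p ^ 2 * q * r) ^ 2 - 4 * (-(8 * k' ^ 2 * p ^ 3 * q ^ 2 * r ^ 3)) =
        (4 * k' * p * q * r) ^ 2 * (2 * p * q) := by
      rw [hr]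
      ring
    rw [e2, leg_sq_mul l _ _ h4]
    exact (R.leg l h2 ⟨k', hk'⟩).1

end Pool.Agent.G02.H81
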